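import Mathlib

namespace Pool.Agent.Results.MP_b358a5_co.Separate

open MvPolynomial

/-- `P d`: nonzero polynomials in countably many variables with coefficients in `ℕ`,
zero constant term and degree at most `d` in each single variable. -/
def P (d : ℕ) : Set (MvPolynomial ℕ ℕ) :=
  {p | p ≠ 0 ∧ coeff 0 p = 0 ∧ ∀ n, degreeOf n p ≤ d}

/-- a copy of the pattern `F` in `S` -/
def IsCopy {m k : ℕ} (S : Set (MvPolynomial ℕ ℕ)) (F : Fin k → MvPolynomial (Fin m) ℕ)
    (a : Fin m → MvPolynomial ℕ ℕ) : Prop :=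
  (∀ s, a s ∈ S) ∧ ∀ l, aeval a (F l) ∈ S

/-- `F` appears in `S` -/
def Appears {m k : ℕ} (S : Set (MvPolynomial ℕ ℕ)) (F : Fin k → MvPolynomial (Fin m) ℕ) : Prop :=
  ∃ a, IsCopy S F a

/-- `F` is partition regular over `S` -/
def PR {m k : ℕ} (S : Set (MvPolynomial ℕ ℕ)) (F : Fin k → MvPolynomial (Fin m) ℕ) : Prop :=
  ∀ (r : ℕ) (c : S → Fin r), ∃ a, ∃ h : IsCopy S F a,
    ∀ l l', c ⟨aeval a (F l), h.2 l⟩ = c ⟨aeval a (F l'), h.2 l'⟩

/-- `F` is partition regular over `S` with pairwise distinct values -/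
def StrongPR {m k : ℕ} (S : Set (MvPolynomial ℕ ℕ)) (F : Fin k → MvPolynomial (Fin m) ℕ) : Prop :=
  ∀ (r : ℕ) (c : S → Fin r), ∃ a, ∃ h : IsCopy S F a,
    Function.Injective (fun l => aeval a (F l)) ∧
    ∀ l l', c ⟨aeval a (F l), h.2 l⟩ = c ⟨aeval a (F l'), h.2 l'⟩

/-- the pattern `{a b, x^i y + x^i + y}` -/
noncomputable def pat (i : ℕ) : Fin 2 → MvPolynomial (Fin 4) ℕ :=
  ![X 0 * X 1, X 2 ^ i * X 3 + X 2 ^ i + X 3]

lemma mem_supp_add {p q : MvPolynomial ℕ ℕ} {m : ℕ →₀ ℕ} :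
    m ∈ (p + q).support ↔ m ∈ p.support ∨ m ∈ q.support := by
  simp only [mem_support_iff, coeff_add]
  omega

lemma mem_supp_mul {p q : MvPolynomial ℕ ℕ} {m n : ℕ →₀ ℕ} (hm : m ∈ p.support)
    (hn : n ∈ q.support) : m + n ∈ (p * q).support := by
  classical
  rw [mem_support_iff] at *
  rw [coeff_mul]
  intro h0
  rw [Finset.sum_eq_zero_iff] at h0
  have h1 := h0 (m, n) (by simp)
  exact Nat.mul_ne_zero hm hn h1

lemma supp_mul_split {p q : MvPolynomial ℕ ℕ} {s : ℕ →₀ ℕ} (hs : s ∈ (p * q).support) :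
    ∃ m ∈ p.support, ∃ n ∈ q.support, m + n = s := by
  classical
  exact Finset.mem_add.1 (support_mul p q hs)

lemma deg_le_add (p q : MvPolynomial ℕ ℕ) (n : ℕ) : degreeOf n p ≤ degreeOf n (p + q) :=
  degreeOf_le_iff.2 (fun _ hm => monomial_le_degreeOf n (mem_supp_add.2 (Or.inl hm)))

lemma exists_ne {m : ℕ →₀ ℕ} (h : m ≠ 0) : ∃ n, m n ≠ 0 := by
  by_contra hcon
  push Not at hcon
  exact h (Finsupp.ext hcon)

lemma deg_pos {m : ℕ →₀ ℕ} (h : m ≠ 0) : 0 < m.degree := by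
  rw [Nat.pos_iff_ne_zero]
  intro h0
  exact h ((Finsupp.degree_eq_zero_iff m).1 h0)

lemma not_prod {w y a b : MvPolynomial ℕ ℕ} (hw : w ≠ 0) (hy : y ≠ 0)
    (hdis : ∀ n, degreeOf n w = 0 ∨ degreeOf n y = 0) (ha : coeff 0 a = 0) (hb : coeff 0 b = 0) :
    w * y + w + y ≠ a * b := by
  intro h
  obtain ⟨mX, hmX, hminX⟩ := Finset.exists_min_image w.support Finsupp.degree
    (support_nonempty.2 hw)
  obtain ⟨mY, hmY, hminY⟩ := Finset.exists_min_image y.support Finsupp.degree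
    (support_nonempty.2 hy)
  have h1 : mX ∈ (a * b).support := by
    rw [← h]; exact mem_supp_add.2 (Or.inl (mem_supp_add.2 (Or.inr hmX)))
  have h2 : mY ∈ (a * b).support := by
    rw [← h]; exact mem_supp_add.2 (Or.inr hmY)
  obtain ⟨p, hp, q, hq, hpq⟩ := supp_mul_split h1
  obtain ⟨p', hp', q', hq', hpq'⟩ := supp_mul_split h2
  have na : ∀ s ∈ a.support, s ≠ 0 := by
    rintro s hs rfl
    exact (mem_support_iff.1 hs) ha
  have nb : ∀ s ∈ b.support, s ≠ 0 := by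
    rintro s hs rfl
    exact (mem_support_iff.1 hs) hb
  have h3 : p + q' ∈ (w * y + w + y).support := by
    rw [h]; exact mem_supp_mul hp hq'
  obtain ⟨u, hu⟩ := exists_ne (na p hp)
  obtain ⟨v, hv⟩ := exists_ne (nb q' hq')
  have hu1 : mX u ≤ degreeOf u w := monomial_le_degreeOf u hmX
  have hv1 : mY v ≤ degreeOf v y := monomial_le_degreeOf v hmY
  have hu2 : mX u = p u + q u := by rw [← hpq]; rfl
  have hv2 : mY v = p' v + q' v := by rw [← hpq']; rfl
  rcases mem_supp_add.1 h3 with h4 | h4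
  · rcases mem_supp_add.1 h4 with h5 | h5
    · obtain ⟨s, hs, t, ht, hst⟩ := supp_mul_split h5
      have e1 := hminX s hs
      have e2 := hminY t ht
      have e3 := congrArg Finsupp.degree hst
      have e4 := congrArg Finsupp.degree hpq
      have e5 := congrArg Finsupp.degree hpq'
      rw [map_add] at e3 e3 e4 e5
      have e6 := deg_pos (nb q hq)
      have e7 := deg_pos (na p' hp')
      omega
    · have := monomial_le_degreeOf v h5
      have := hdis v
      simp only [Finsupp.add_apply] at *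
      omega
  · have := monomial_le_degreeOf u h4
    have := hdis u
    simp only [Finsupp.add_apply] at *
    omega

lemma ev0 (i : ℕ) (a : Fin 4 → MvPolynomial ℕ ℕ) : aeval a (pat i 0) = a 0 * a 1 := by
  simp [pat]

lemma ev1 (i : ℕ) (a : Fin 4 → MvPolynomial ℕ ℕ) :
    aeval a (pat i 1) = a 2 ^ i * a 3 + a 2 ^ i + a 3 := by
  simp [pat]

lemma notPR (i : ℕ) (hi : 1 ≤ i) : ¬ PR (P i) (pat i) := by
  classical
  intro h
  obtain ⟨a, hc, hcol⟩ := h 2 (fun p => if ∃ u v : MvPolynomial ℕ ℕ,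
    coeff 0 u = 0 ∧ coeff 0 v = 0 ∧ p.1 = u * v then 0 else 1)
  have h01 := hcol 0 1
  simp only at h01
  rw [if_pos ⟨a 0, a 1, (hc.1 0).2.1, (hc.1 1).2.1, ev0 i a⟩] at h01
  by_cases hex : ∃ u v : MvPolynomial ℕ ℕ, coeff 0 u = 0 ∧ coeff 0 v = 0 ∧
      aeval a (pat i 1) = u * v
  · obtain ⟨u, v, hu, hv, huv⟩ := hex
    rw [ev1] at huv
    have hw : a 2 ^ i ≠ 0 := pow_ne_zero _ (hc.1 2).1
    refine not_prod hw (hc.1 3).1 ?_ hu hv huv
    intro n
    have h1 := (hc.2 1).2.2 n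
    rw [ev1, add_assoc] at h1
    have h2 := (deg_le_add _ _ n).trans h1
    rw [degreeOf_mul_eq hw (hc.1 3).1, degreeOf_pow_eq _ _ _ (hc.1 2).1] at h2
    rw [degreeOf_pow_eq _ _ _ (hc.1 2).1]
    rcases Nat.eq_zero_or_pos (degreeOf n (a 2)) with h3 | h3
    · left; rw [h3]; simp
    · right
      have : i * 1 ≤ i * degreeOf n (a 2) := Nat.mul_le_mul_left _ h3
      omega
  · rw [if_neg hex] at h01
    exact absurd h01 (by decide)

lemma dX (n k : ℕ) : degreeOf n (X k : MvPolynomial ℕ ℕ) = if n = k then 1 else 0 := by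
  rw [degreeOf_X]

lemma memP {d : ℕ} {p : MvPolynomial ℕ ℕ} (h1 : eval (fun _ => 1) p ≠ 0)
    (h2 : eval (fun _ => 0) p = 0) (h3 : ∀ n, degreeOf n p ≤ d) : p ∈ P d := by
  refine ⟨?_, ?_, h3⟩
  · rintro rfl
    simp at h1
  · rw [← constantCoeff_eq, ← eval_zero]
    exact h2

lemma d_add {n e f d : ℕ} {p q : MvPolynomial ℕ ℕ} (hp : degreeOf n p ≤ e)
    (hq : degreeOf n q ≤ f) (he : e ≤ d) (hf : f ≤ d) : degreeOf n (p + q) ≤ d :=
  (degreeOf_add_le n p q).trans (max_le (hp.trans he) (hq.trans hf))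

lemma appears (i : ℕ) (hi : 1 ≤ i) : Appears (P i) (pat i) := by
  have hX : ∀ k, (X k : MvPolynomial ℕ ℕ) ∈ P i := fun k =>
    memP (by simp) (by simp) (fun n => by rw [dX]; split_ifs <;> omega)
  have i0 : i ≠ 0 := by omega
  refine ⟨![X 0, X 1, X 0, X 1], ?_, ?_⟩
  · intro s
    fin_cases s <;> exact hX _
  · intro l
    fin_cases l
    · simp only [Fin.zero_eta, ev0]
      refine memP (by simp) (by simp) (fun n => ?_)
      refine (degreeOf_mul_le _ _ _).trans ?_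
      simp only [Matrix.cons_val_zero, Matrix.cons_val_one, dX]
      split_ifs <;> omega
    · simp only [Fin.mk_one, ev1]
      refine memP (by simp) (by simp [i0]) (fun n => ?_)
      have e2 : (![X 0, X 1, X 0, X 1] : Fin 4 → MvPolynomial ℕ ℕ) 2 = X 0 := rfl
      have e3 : (![X 0, X 1, X 0, X 1] : Fin 4 → MvPolynomial ℕ ℕ) 3 = X 1 := rfl
      rw [e2, e3]
      have h0 : degreeOf n ((X 0 : MvPolynomial ℕ ℕ) ^ i) ≤ i * degreeOf n (X 0) :=
        degreeOf_pow_le _ _ _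
      have h1 := degreeOf_mul_le n ((X 0 : MvPolynomial ℕ ℕ) ^ i) (X 1)
      rw [dX] at h0 h1
      refine d_add (d_add (e := i) (f := i) ?_ ?_ le_rfl le_rfl) (le_of_eq (dX n 1)) le_rfl ?_
      · split_ifs at h0 h1 <;> omega
      · split_ifs at h0 <;> omega
      · split_ifs <;> omega

/-- the cofactor -/
noncomputable def B (i n : ℕ) : MvPolynomial ℕ ℕ :=
  (X 0 * X 1) ^ i * X (n + 2) + X 0 ^ (i - 1) * X 1 ^ i + X (n + 2)

lemma fac (i n : ℕ) (hi : 1 ≤ i) : X 0 * B i n =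
    (X 0 * X 1) ^ i * (X 0 * X (n + 2)) + (X 0 * X 1) ^ i + X 0 * X (n + 2) := by
  obtain ⟨k, rfl⟩ : ∃ k, i = k + 1 := ⟨i - 1, by omega⟩
  simp only [B, Nat.add_sub_cancel]
  ring

lemma degB (i n k : ℕ) (hi : 1 ≤ i) : degreeOf k (B i n) ≤ i := by
  have h0 : degreeOf k ((X 0 * X 1 : MvPolynomial ℕ ℕ) ^ i) ≤ i * degreeOf k (X 0 * X 1) :=
    degreeOf_pow_le _ _ _
  have h1 := degreeOf_mul_le k (X 0 : MvPolynomial ℕ ℕ) (X 1)
  have h2 := degreeOf_mul_le k ((X 0 * X 1 : MvPolynomial ℕ ℕ) ^ i) (X (n + 2))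
  have h3 := degreeOf_mul_le k ((X 0 : MvPolynomial ℕ ℕ) ^ (i - 1)) (X 1 ^ i)
  have h4 : degreeOf k ((X 0 : MvPolynomial ℕ ℕ) ^ (i - 1)) ≤ (i - 1) * degreeOf k (X 0) :=
    degreeOf_pow_le _ _ _
  have h5 : degreeOf k ((X 1 : MvPolynomial ℕ ℕ) ^ i) ≤ i * degreeOf k (X 1) :=
    degreeOf_pow_le _ _ _
  have h6 := h0.trans (Nat.mul_le_mul_left i h1)
  simp only [dX] at h2 h4 h5 h6
  refine d_add (d_add (e := i) (f := i) ?_ ?_ le_rfl le_rfl) (le_of_eq (dX k (n + 2))) le_rfl ?_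
  · split_ifs at h2 h6 <;> omega
  · split_ifs at h4 h5 <;> omega
  · split_ifs <;> omega

lemma strong (i j : ℕ) (hi : 1 ≤ i) (hij : i < j) : StrongPR (P j) (pat i) := by
  intro r c
  have i0 : i ≠ 0 := by omega
  have hX : ∀ k, (X k : MvPolynomial ℕ ℕ) ∈ P j := fun k =>
    memP (by simp) (by simp) (fun n => by rw [dX]; split_ifs <;> omega)
  have hXX : ∀ k, (X 0 * X (k + 1) : MvPolynomial ℕ ℕ) ∈ P j := fun k =>
    memP (by simp) (by simp) (fun n => by
      refine (degreeOf_mul_le _ _ _).trans ?_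
      simp only [dX]
      split_ifs <;> omega)
  have hB : ∀ n, B i n ∈ P j := fun n =>
    memP (by simp [B]) (by simp [B, i0]) (fun k => (degB i n k hi).trans hij.le)
  have hV : ∀ n, X 0 * B i n ∈ P j := fun n =>
    memP (by simp [B]) (by simp) (fun k => by
      refine (degreeOf_mul_le _ _ _).trans ?_
      have := degB i n k hi
      rw [dX]
      split_ifs <;> omega)
  obtain ⟨n, m, hnm, hc⟩ :=
    Finite.exists_ne_map_eq_of_infinite (fun n : ℕ => c ⟨X 0 * B i n, hV n⟩)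
  let a : Fin 4 → MvPolynomial ℕ ℕ := ![X 0, B i n, X 0 * X 1, X 0 * X (m + 2)]
  have e0 : aeval a (pat i 0) = X 0 * B i n := by rw [ev0]; rfl
  have e1 : aeval a (pat i 1) = X 0 * B i m := by rw [ev1, fac i m hi]; rfl
  have hne : (X 0 * B i n : MvPolynomial ℕ ℕ) ≠ X 0 * B i m := by
    intro h
    have := congrArg (eval (fun k => if k = n + 2 then 2 else 1)) h
    have hmn : m ≠ n := fun h => hnm h.symm
    simp [B, hmn] at this
  have hcopy : IsCopy (P j) (pat i) a := by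
    refine ⟨?_, ?_⟩
    · intro s
      fin_cases s
      · exact hX 0
      · exact hB n
      · exact hXX 0
      · exact hXX (m + 1)
    · intro l
      fin_cases l
      · simp only [Fin.zero_eta, e0]; exact hV n
      · simp only [Fin.mk_one, e1]; exact hV m
  have c0 : c ⟨aeval a (pat i 0), hcopy.2 0⟩ = c ⟨aeval a (pat i 1), hcopy.2 1⟩ := by
    simp only [e0, e1]
    exact hc
  refine ⟨a, hcopy, ?_, ?_⟩
  · intro l l' h
    fin_cases l <;> fin_cases l'
    · rfl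
    · simp only [Fin.zero_eta, Fin.mk_one, e0, e1] at h
      exact absurd h hne
    · simp only [Fin.zero_eta, Fin.mk_one, e0, e1] at h
      exact absurd h.symm hne
    · rfl
  · intro l l'
    fin_cases l <;> fin_cases l'
    · rfl
    · exact c0
    · exact c0.symm
    · rfl

theorem result : ∀ i j : ℕ, 1 ≤ i → i < j →
    ∃ (m k : ℕ) (F : Fin k → MvPolynomial (Fin m) ℕ), (∀ l, F l ≠ 0 ∧ coeff 0 (F l) = 0) ∧
      Appears (P i) F ∧ PR (P j) F ∧ StrongPR (P j) F ∧ ¬ PR (P i) F := by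
  intro i j hi hij
  have i0 : i ≠ 0 := by omega
  refine ⟨4, 2, pat i, ?_, appears i hi, ?_, strong i j hi hij, notPR i hi⟩
  · intro l
    refine ⟨?_, ?_⟩
    · intro h0
      have := congrArg (eval (fun _ => 1)) h0
      fin_cases l <;> simp [pat] at this
    · rw [← constantCoeff_eq]
      fin_cases l <;> simp [pat, i0]
  · intro r c
    obtain ⟨a, h, _, h2⟩ := strong i j hi hij r c
    exact ⟨a, h, h2⟩

end Pool.Agent.Results.MP_b358a5_co.Separate
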